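import Pool.Agent.H51.Cre.E

set_option linter.all false

namespace Pool.Agent.Results.MP_b5dac0_ag.NotBounded

open MvPolynomial

noncomputable section

/-- complex projective space `ℙ^s`, with homogeneous coordinates indexed by `0, …, s`. -/
abbrev PS (s : ℕ) : Type := Projectivization ℂ (Fin (s + 1) → ℂ)

/-- polynomials in `x_0, …, x_s` and `y_0, …, y_s`. -/
abbrev Pol2 (s : ℕ) : Type := MvPolynomial (Fin (s + 1) ⊕ Fin (s + 1)) ℂ

/-- `F` is homogeneous of degree `m` in the `x`-variables and of degree `n` in the `y`-variables. -/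
def IsBihom {s : ℕ} (F : Pol2 s) (m n : ℕ) : Prop :=
  ∀ e ∈ F.support, (∑ i, e (Sum.inl i) = m) ∧ (∑ i, e (Sum.inr i) = n)

/-- the zero set in `ℙ^s × ℙ^s` (used for bihomogeneous polynomials). -/
def zeros {s : ℕ} (F : Pol2 s) : Set (PS s × PS s) :=
  {p | eval (Sum.elim p.1.rep p.2.rep) F = 0}

/-- Zariski-open subsets of `ℙ^s`: complements of common zero sets of homogeneous polynomials. -/
def IsZariskiOpen {s : ℕ} (U : Set (PS s)) : Prop :=
  ∃ S : Set (MvPolynomial (Fin (s + 1)) ℂ), (∀ f ∈ S, ∃ m, f.IsHomogeneous m) ∧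
    U = {p | ∃ f ∈ S, eval p.rep f ≠ 0}

/-- irreducible hypersurfaces of `ℙ^s × ℙ^s`. -/
def IsIrredHypersurface {s : ℕ} (H : Set (PS s × PS s)) : Prop :=
  ∃ (F : Pol2 s) (m n : ℕ), IsBihom F m n ∧ Irreducible F ∧ H = zeros F

/-- `V` contains no `(a,b)`-grid. -/
def GridFree {P Q : Type} (a b : ℕ) (V : Set (P × Q)) : Prop :=
  ∀ (S : Set P) (T : Set Q), S.encard = a → T.encard = b → ¬ (S ×ˢ T ⊆ V)

/-- `V` is almost-`(a,b)`-grid-free. -/
def AlmostGridFree {s : ℕ} (a b : ℕ) (V : Set (PS s × PS s)) : Prop :=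
  ∃ X Y : Set (PS s), IsZariskiOpen X ∧ X.Nonempty ∧ IsZariskiOpen Y ∧ Y.Nonempty ∧
    GridFree a b (V ∩ X ×ˢ Y)

/-- `V` and `W` are almost equal. -/
def AlmostEqual {s : ℕ} (V W : Set (PS s × PS s)) : Prop :=
  ∃ X Y : Set (PS s), IsZariskiOpen X ∧ X.Nonempty ∧ IsZariskiOpen Y ∧ Y.Nonempty ∧
    V ∩ X ×ˢ Y = W ∩ X ×ˢ Y

/-- the composite `p ∘ σ` as a polynomial substitution. -/
def subst {s : ℕ} (σ p : Fin (s + 1) → MvPolynomial (Fin (s + 1)) ℂ) :
    Fin (s + 1) → MvPolynomial (Fin (s + 1)) ℂ := fun i => bind₁ σ (p i)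

/-- homogeneous of a common degree and without common factor. -/
def IsReducedMap {s : ℕ} (σ : Fin (s + 1) → MvPolynomial (Fin (s + 1)) ℂ) : Prop :=
  (∃ m, ∀ i, (σ i).IsHomogeneous m) ∧ ∀ g, (∀ i, g ∣ σ i) → IsUnit g

/-- the tuple represents the identity rational map: it is `h · (X_0, …, X_s)` with `h ≠ 0`. -/
def IsIdMap {s : ℕ} (p : Fin (s + 1) → MvPolynomial (Fin (s + 1)) ℂ) : Prop :=
  ∃ h : MvPolynomial (Fin (s + 1)) ℂ, h ≠ 0 ∧ ∀ i, p i = h * X i

/-- `σ` represents an element of the Cremona group of `ℙ^s`. -/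
def IsCremona {s : ℕ} (σ : Fin (s + 1) → MvPolynomial (Fin (s + 1)) ℂ) : Prop :=
  IsReducedMap σ ∧ ∃ τ, IsReducedMap τ ∧ IsIdMap (subst σ τ) ∧ IsIdMap (subst τ σ)

/-- `F ∘ (id × σ)`. -/
def comp {s : ℕ} (F : Pol2 s) (σ : Fin (s + 1) → MvPolynomial (Fin (s + 1)) ℂ) : Pol2 s :=
  bind₁ (Sum.elim (fun i => X (Sum.inl i)) (fun i => rename Sum.inr (σ i))) F

/-- the assertion of the question for one pair `(s,t)`. -/
def BoundedUpToCremona (s t : ℕ) : Prop :=
  ∃ d : ℕ, ∀ H : Set (PS s × PS s), IsIrredHypersurface H → AlmostGridFree s t H →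
    ∃ σ : Fin (s + 1) → MvPolynomial (Fin (s + 1)) ℂ, IsCremona σ ∧
      ∃ (F : Pol2 s) (m n : ℕ), IsBihom F m n ∧ n ≤ d ∧ AlmostEqual H (zeros (comp F σ))

/-! ## bihomogeneous polynomials -/

theorem IsBihom.add {s : ℕ} {F G : Pol2 s} {m n : ℕ} (hF : IsBihom F m n) (hG : IsBihom G m n) :
    IsBihom (F + G) m n := by
  classical
  intro e he
  rcases Finset.mem_union.mp (support_add he) with h | h
  · exact hF e h
  · exact hG e h

theorem IsBihom.mul {s : ℕ} {F G : Pol2 s} {m n m' n' : ℕ} (hF : IsBihom F m n)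
    (hG : IsBihom G m' n') : IsBihom (F * G) (m + m') (n + n') := by
  classical
  intro e he
  obtain ⟨e1, h1, e2, h2, rfl⟩ := Finset.mem_add.mp (support_mul F G he)
  have a1 := hF e1 h1
  have a2 := hG e2 h2
  simp only [Finsupp.add_apply, Finset.sum_add_distrib]
  exact ⟨by rw [a1.1, a2.1], by rw [a1.2, a2.2]⟩

theorem isBihom_one {s : ℕ} : IsBihom (1 : Pol2 s) 0 0 := by
  intro e he
  have : e = 0 := by
    by_contra h
    rw [mem_support_iff, coeff_one, if_neg (fun h' => h h'.symm)] at he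
    exact he rfl
  subst this
  simp

theorem IsBihom.pow {s : ℕ} {F : Pol2 s} {m n : ℕ} (hF : IsBihom F m n) (k : ℕ) :
    IsBihom (F ^ k) (k * m) (k * n) := by
  induction k with
  | zero => simpa using isBihom_one
  | succ k ih =>
    rw [pow_succ, Nat.succ_mul, Nat.succ_mul]
    exact ih.mul hF

theorem isBihom_x {s : ℕ} (i : Fin (s + 1)) : IsBihom (X (Sum.inl i) : Pol2 s) 1 0 := by
  classical
  intro e he
  rw [support_X, Finset.mem_singleton] at he
  subst he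
  simp [Finsupp.single_apply]

theorem isBihom_y {s : ℕ} (i : Fin (s + 1)) : IsBihom (X (Sum.inr i) : Pol2 s) 0 1 := by
  classical
  intro e he
  rw [support_X, Finset.mem_singleton] at he
  subst he
  simp [Finsupp.single_apply]

/-- scaling of a bihomogeneous polynomial. -/
theorem IsBihom.eval_scale {s : ℕ} {F : Pol2 s} {m n : ℕ} (hF : IsBihom F m n) (c c' : ℂ)
    (x y : Fin (s + 1) → ℂ) :
    eval (Sum.elim (fun i => c * x i) (fun i => c' * y i)) F
      = c ^ m * c' ^ n * eval (Sum.elim x y) F := by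
  rw [eval_eq', eval_eq', Finset.mul_sum]
  refine Finset.sum_congr rfl fun e he => ?_
  obtain ⟨h1, h2⟩ := hF e he
  rw [Fintype.prod_sum_type, Fintype.prod_sum_type]
  simp only [Sum.elim_inl, Sum.elim_inr, mul_pow, Finset.prod_mul_distrib,
    Finset.prod_pow_eq_pow_sum]
  rw [h1, h2]
  ring

theorem rep_mk {s : ℕ} (v : Fin (s + 1) → ℂ) (hv : v ≠ 0) :
    ∃ c : ℂ, c ≠ 0 ∧ (Projectivization.mk ℂ v hv).rep = fun i => c * v i := by
  obtain ⟨a, ha⟩ := Projectivization.exists_smul_eq_mk_rep ℂ v hv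
  refine ⟨a, a.ne_zero, ?_⟩
  rw [← ha]
  funext i
  rfl

theorem mem_zeros_mk {s : ℕ} {F : Pol2 s} {m n : ℕ} (hF : IsBihom F m n)
    (x y : Fin (s + 1) → ℂ) (hx : x ≠ 0) (hy : y ≠ 0) :
    (Projectivization.mk ℂ x hx, Projectivization.mk ℂ y hy) ∈ zeros F ↔
      eval (Sum.elim x y) F = 0 := by
  obtain ⟨c, hc, h1⟩ := rep_mk x hx
  obtain ⟨c', hc', h2⟩ := rep_mk y hy
  show eval (Sum.elim (Projectivization.mk ℂ x hx).rep (Projectivization.mk ℂ y hy).rep) F = 0 ↔ _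
  rw [h1, h2, hF.eval_scale]
  constructor
  · intro h
    exact (mul_eq_zero.mp h).resolve_left (mul_ne_zero (pow_ne_zero _ hc) (pow_ne_zero _ hc'))
  · intro h
    rw [h, mul_zero]

theorem eval_comp {s : ℕ} (F : Pol2 s) (σ : Fin (s + 1) → MvPolynomial (Fin (s + 1)) ℂ)
    (x y : Fin (s + 1) → ℂ) :
    eval (Sum.elim x y) (comp F σ) = eval (Sum.elim x (fun i => eval y (σ i))) F := by
  unfold comp
  rw [← Pool.Agent.H51.Cre.aev, aeval_bind₁, ← Pool.Agent.H51.Cre.aev]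
  congr 2
  funext i
  rcases i with i | i
  · simp
  · simp only [Sum.elim_inr]
    rw [aeval_rename, Pool.Agent.H51.Cre.aev]
    congr 2

theorem homog_scale {s : ℕ} {f : MvPolynomial (Fin (s + 1)) ℂ} {k : ℕ} (hf : f.IsHomogeneous k)
    (c : ℂ) (y : Fin (s + 1) → ℂ) : eval (fun i => c * y i) f = c ^ k * eval y f := by
  have h := Pool.Agent.H51.Cre.aeval_scale (K := ℂ) hf c y
  rwa [Pool.Agent.H51.Cre.aev, Pool.Agent.H51.Cre.aev] at h

theorem mem_zeros_comp_mk {s : ℕ} {F : Pol2 s} {m n : ℕ} (hF : IsBihom F m n)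
    {σ : Fin (s + 1) → MvPolynomial (Fin (s + 1)) ℂ} {k : ℕ} (hσ : ∀ i, (σ i).IsHomogeneous k)
    (x y : Fin (s + 1) → ℂ) (hx : x ≠ 0) (hy : y ≠ 0) :
    (Projectivization.mk ℂ x hx, Projectivization.mk ℂ y hy) ∈ zeros (comp F σ) ↔
      eval (Sum.elim x (fun i => eval y (σ i))) F = 0 := by
  obtain ⟨c, hc, h1⟩ := rep_mk x hx
  obtain ⟨c', hc', h2⟩ := rep_mk y hy
  show eval (Sum.elim (Projectivization.mk ℂ x hx).rep (Projectivization.mk ℂ y hy).rep)
    (comp F σ) = 0 ↔ _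
  rw [h1, h2, eval_comp]
  have h3 : (fun i => eval (fun i => c' * y i) (σ i)) = fun i => c' ^ k * eval y (σ i) := by
    funext i
    exact homog_scale (hσ i) c' y
  rw [h3, hF.eval_scale]
  constructor
  · intro h
    exact (mul_eq_zero.mp h).resolve_left
      (mul_ne_zero (pow_ne_zero _ hc) (pow_ne_zero _ (pow_ne_zero _ hc')))
  · intro h
    rw [h, mul_zero]

/-- a nonempty open set contains a basic open set. -/
theorem exists_basic {s : ℕ} {U : Set (PS s)} (hU : IsZariskiOpen U) (hne : U.Nonempty) :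
    ∃ (f : MvPolynomial (Fin (s + 1)) ℂ) (k : ℕ), f ≠ 0 ∧ f.IsHomogeneous k ∧
      ∀ (v : Fin (s + 1) → ℂ) (hv : v ≠ 0), eval v f ≠ 0 → Projectivization.mk ℂ v hv ∈ U := by
  obtain ⟨S, hS, rfl⟩ := hU
  obtain ⟨p, f, hf, hp⟩ := hne
  obtain ⟨k, hk⟩ := hS f hf
  refine ⟨f, k, ?_, hk, ?_⟩
  · rintro rfl
    exact hp (map_zero _)
  · intro v hv hvf
    refine ⟨f, hf, ?_⟩
    obtain ⟨c, hc, h1⟩ := rep_mk v hv
    rw [h1, homog_scale hk]
    exact mul_ne_zero (pow_ne_zero _ hc) hvf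

/-! ## the hypersurfaces -/

/-- `x_0 y_0^N + x_1 y_0^{N-1} y_1 + x_2 (y_0^{N-2} y_2^2 + y_1^N)` with `N = M + 2`. -/
def FF (M : ℕ) : Pol2 2 :=
  X (Sum.inl 0) * X (Sum.inr 0) ^ (M + 2) + X (Sum.inl 1) * (X (Sum.inr 0) ^ (M + 1) * X (Sum.inr 1))
    + X (Sum.inl 2) * (X (Sum.inr 0) ^ M * X (Sum.inr 2) ^ 2 + X (Sum.inr 1) ^ (M + 2))

theorem FF_bihom (M : ℕ) : IsBihom (FF M) 1 (M + 2) := by
  unfold FF
  refine IsBihom.add (IsBihom.add ?_ ?_) ?_
  · have := (isBihom_x (s := 2) 0).mul ((isBihom_y (s := 2) 0).pow (M + 2))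
    simpa using this
  · have := (isBihom_x (s := 2) 1).mul (((isBihom_y (s := 2) 0).pow (M + 1)).mul (isBihom_y 1))
    simpa using this
  · have h1 := ((isBihom_y (s := 2) 0).pow M).mul ((isBihom_y (s := 2) 2).pow 2)
    have h2 := (isBihom_y (s := 2) 1).pow (M + 2)
    have := (isBihom_x (s := 2) 2).mul (IsBihom.add (m := 0) (n := M + 2)
      (by simpa using h1) (by simpa using h2))
    simpa using this

theorem eval_FF (M : ℕ) (x y : Fin 3 → ℂ) : eval (Sum.elim x y) (FF M)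
    = x 0 * y 0 ^ (M + 2) + x 1 * (y 0 ^ (M + 1) * y 1)
      + x 2 * (y 0 ^ M * y 2 ^ 2 + y 1 ^ (M + 2)) := by
  simp [FF]

theorem not_vars_of {ι : Type} {f : MvPolynomial ι ℂ} (s : Set ι) (h : f ∈ supported ℂ s) {i : ι}
    (hi : i ∉ s) : i ∉ f.vars := fun h' => hi (mem_supported.mp h h')

theorem FF_irred (M : ℕ) : Irreducible (FF M) := by
  classical
  set g : Pol2 2 := X (Sum.inl 1) * (X (Sum.inr 0) ^ (M + 1) * X (Sum.inr 1))
    + X (Sum.inl 2) * (X (Sum.inr 0) ^ M * X (Sum.inr 2) ^ 2 + X (Sum.inr 1) ^ (M + 2)) with hg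
  have hFF : FF M = X (Sum.inr 0) ^ (M + 2) * X (Sum.inl 0) + g := by
    rw [hg]; unfold FF; ring
  rw [hFF]
  refine irreducible_mul_X_add _ _ _ (pow_ne_zero _ (X_ne_zero _)) ?_ ?_ ?_
  · refine not_vars_of {Sum.inl 0}ᶜ ?_ (by simp)
    exact pow_mem (X_mem_supported.mpr (by simp)) _
  · refine not_vars_of {Sum.inl 0}ᶜ ?_ (by simp)
    rw [hg]
    refine add_mem (mul_mem (X_mem_supported.mpr (by simp)) (mul_mem (pow_mem
      (X_mem_supported.mpr (by simp)) _) (X_mem_supported.mpr (by simp)))) ?_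
    exact mul_mem (X_mem_supported.mpr (by simp)) (add_mem (mul_mem (pow_mem
      (X_mem_supported.mpr (by simp)) _) (pow_mem (X_mem_supported.mpr (by simp)) _))
      (pow_mem (X_mem_supported.mpr (by simp)) _))
  · apply IsRelPrime.pow_left
    have hX : Irreducible (X (Sum.inr 0) : Pol2 2) := by
      have := irreducible_mul_X_add (1 : Pol2 2) 0 (Sum.inr 0) one_ne_zero (by simp) (by simp)
        isRelPrime_one_left
      simpa using this
    rw [hX.isRelPrime_iff_not_dvd]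
    rintro ⟨q, hq⟩
    have h1 := congrArg (eval (Sum.elim (![0, 0, 1] : Fin 3 → ℂ) (![0, 1, 1] : Fin 3 → ℂ))) hq
    rw [hg] at h1
    rcases Nat.eq_zero_or_pos M with h0 | h0
    · subst h0
      simp at h1
    · simp [h0.ne'] at h1

/-! ## grid-freeness -/

theorem lin_aux (p q : Fin 3 → ℂ) (v1 v2 w1 w2 : ℂ) (hp0 : p ≠ 0) (hq0 : q ≠ 0)
    (hne : v1 ≠ w1 ∨ v2 ≠ w2)
    (h1 : p 0 + p 1 * v1 + p 2 * v2 = 0) (h2 : q 0 + q 1 * v1 + q 2 * v2 = 0)
    (h3 : p 0 + p 1 * w1 + p 2 * w2 = 0) (h4 : q 0 + q 1 * w1 + q 2 * w2 = 0) :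
    Projectivization.mk ℂ p hp0 = Projectivization.mk ℂ q hq0 := by
  have hdet : p 1 * q 2 = p 2 * q 1 := by
    have e1 : p 1 * (v1 - w1) + p 2 * (v2 - w2) = 0 := by linear_combination h1 - h3
    have e2 : q 1 * (v1 - w1) + q 2 * (v2 - w2) = 0 := by linear_combination h2 - h4
    rcases hne with h | h
    · have h' : v1 - w1 ≠ 0 := sub_ne_zero.mpr h
      apply mul_right_cancel₀ h'
      linear_combination q 2 * e1 - p 2 * e2
    · have h' : v2 - w2 ≠ 0 := sub_ne_zero.mpr h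
      apply mul_right_cancel₀ h'
      linear_combination - q 1 * e1 + p 1 * e2
  rw [Projectivization.mk_eq_mk_iff']
  by_cases hq1 : q 1 = 0
  · have hq2 : q 2 ≠ 0 := by
      intro hq2
      apply hq0
      funext i
      fin_cases i
      · simpa [hq1, hq2] using h2
      · exact hq1
      · exact hq2
    refine ⟨p 2 / q 2, ?_⟩
    have e1 : p 1 = p 2 / q 2 * q 1 := by
      field_simp
      linear_combination hdet
    have e0 : p 0 = p 2 / q 2 * q 0 := by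
      field_simp
      linear_combination q 2 * h1 - p 2 * h2 - v1 * hdet
    funext i
    fin_cases i
    · exact e0.symm
    · exact e1.symm
    · show p 2 / q 2 * q 2 = p 2
      field_simp
  · refine ⟨p 1 / q 1, ?_⟩
    have e2 : p 2 = p 1 / q 1 * q 2 := by
      field_simp
      linear_combination -hdet
    have e0 : p 0 = p 1 / q 1 * q 0 := by
      field_simp
      linear_combination q 1 * h1 - p 1 * h2 + v2 * hdet
    funext i
    fin_cases i
    · exact e0.symm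
    · show p 1 / q 1 * q 1 = p 1
      field_simp
    · exact e2.symm

theorem open_univ {s : ℕ} : IsZariskiOpen (Set.univ : Set (PS s)) :=
  ⟨{1}, by rintro f rfl; exact ⟨0, isHomogeneous_one _ _⟩, by ext p; simp⟩

theorem open_chart {s : ℕ} (i : Fin (s + 1)) : IsZariskiOpen ({p | p.rep i ≠ 0} : Set (PS s)) :=
  ⟨{X i}, by rintro f rfl; exact ⟨1, isHomogeneous_X _ _⟩, by ext p; simp⟩

theorem chart_eq {y z : PS 2} (hy : y.rep 0 ≠ 0) (hz : z.rep 0 ≠ 0)
    (h1 : y.rep 1 / y.rep 0 = z.rep 1 / z.rep 0) (h2 : y.rep 2 / y.rep 0 = z.rep 2 / z.rep 0) :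
    y = z := by
  rw [← y.mk_rep, ← z.mk_rep, Projectivization.mk_eq_mk_iff']
  refine ⟨y.rep 0 / z.rep 0, ?_⟩
  funext i
  fin_cases i
  · show y.rep 0 / z.rep 0 * z.rep 0 = y.rep 0
    field_simp
  · show y.rep 0 / z.rep 0 * z.rep 1 = y.rep 1
    have := (div_eq_div_iff hy hz).mp h1
    field_simp
    linear_combination -this
  · show y.rep 0 / z.rep 0 * z.rep 2 = y.rep 2
    have := (div_eq_div_iff hy hz).mp h2
    field_simp
    linear_combination -this

theorem on_H (M : ℕ) {x y : PS 2} (hy : y.rep 0 ≠ 0) (h : (x, y) ∈ zeros (FF M)) :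
    x.rep 0 + x.rep 1 * (y.rep 1 / y.rep 0)
      + x.rep 2 * ((y.rep 2 / y.rep 0) ^ 2 + (y.rep 1 / y.rep 0) ^ (M + 2)) = 0 := by
  have h1 : eval (Sum.elim x.rep y.rep) (FF M) = 0 := h
  rw [eval_FF] at h1
  have h2 : y.rep 0 ^ (M + 2) ≠ 0 := pow_ne_zero _ hy
  apply mul_left_cancel₀ h2
  rw [mul_zero, ← h1]
  have h3 : y.rep 0 ^ (M + 2) * (y.rep 1 / y.rep 0) ^ (M + 2) = y.rep 1 ^ (M + 2) := by
    rw [← mul_pow, mul_div_cancel₀ _ hy]
  have h4 : y.rep 0 ^ (M + 2) * (y.rep 2 / y.rep 0) ^ 2 = y.rep 0 ^ M * y.rep 2 ^ 2 := by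
    field_simp
    ring
  have h5 : y.rep 0 ^ (M + 2) * (y.rep 1 / y.rep 0) = y.rep 0 ^ (M + 1) * y.rep 1 := by
    field_simp
    ring
  linear_combination x.rep 2 * h3 + x.rep 2 * h4 + x.rep 1 * h5

theorem FF_gridfree (M t : ℕ) (ht : 3 ≤ t) : AlmostGridFree 2 t (zeros (FF M)) := by
  classical
  refine ⟨Set.univ, {p | p.rep 0 ≠ 0}, open_univ, ⟨Projectivization.mk ℂ ![1, 0, 0] (by
      intro h; simpa using congrFun h 0), Set.mem_univ _⟩, open_chart 0, ?_, ?_⟩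
  · refine ⟨Projectivization.mk ℂ ![1, 0, 0] (by intro h; simpa using congrFun h 0), ?_⟩
    obtain ⟨c, hc, h1⟩ := rep_mk (s := 2) ![1, 0, 0] (by intro h; simpa using congrFun h 0)
    show _ ≠ _
    rw [h1]
    simpa using hc
  · intro S T hS hT hsub
    obtain ⟨x, x', hxx, hSe⟩ := Set.encard_eq_two.mp (by simpa using hS)
    have h3 : (3 : ℕ∞) ≤ T.encard := by
      rw [hT]
      exact_mod_cast ht
    obtain ⟨T', hT', hT3⟩ := Set.exists_subset_encard_eq h3
    obtain ⟨y1, y2, y3, h12, h13, h23, hTe⟩ := Set.encard_eq_three.mp hT3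
    have hy1 : y1 ∈ T := hT' (by rw [hTe]; simp)
    have hy2 : y2 ∈ T := hT' (by rw [hTe]; simp)
    have hy3 : y3 ∈ T := hT' (by rw [hTe]; simp)
    have hx : x ∈ S := by rw [hSe]; simp
    have hx' : x' ∈ S := by rw [hSe]; simp
    have key : ∀ y ∈ T, y.rep 0 ≠ 0 ∧ (x, y) ∈ zeros (FF M) ∧ (x', y) ∈ zeros (FF M) := by
      intro y hy
      have a1 := hsub (Set.mk_mem_prod hx hy)
      have a2 := hsub (Set.mk_mem_prod hx' hy)
      exact ⟨a1.2.2, a1.1, a2.1⟩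
    have key2 : ∀ y ∈ T, ∀ z ∈ T, y.rep 1 / y.rep 0 = z.rep 1 / z.rep 0 ∧
        (y.rep 2 / y.rep 0) ^ 2 = (z.rep 2 / z.rep 0) ^ 2 := by
      intro y hy z hz
      obtain ⟨a0, a1, a2⟩ := key y hy
      obtain ⟨b0, b1, b2⟩ := key z hz
      have a1' := on_H M a0 a1
      have a2' := on_H M a0 a2
      have b1' := on_H M b0 b1
      have b2' := on_H M b0 b2
      by_contra hcon
      have hne : y.rep 1 / y.rep 0 ≠ z.rep 1 / z.rep 0 ∨
          (y.rep 2 / y.rep 0) ^ 2 + (y.rep 1 / y.rep 0) ^ (M + 2)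
            ≠ (z.rep 2 / z.rep 0) ^ 2 + (z.rep 1 / z.rep 0) ^ (M + 2) := by
        by_contra hc
        push Not at hc
        apply hcon
        refine ⟨hc.1, ?_⟩
        have := hc.2
        rw [hc.1] at this
        exact add_right_cancel this
      have := lin_aux x.rep x'.rep _ _ _ _ x.rep_nonzero x'.rep_nonzero hne a1' a2' b1' b2'
      rw [Projectivization.mk_rep, Projectivization.mk_rep] at this
      exact hxx this
    obtain ⟨c12, d12⟩ := key2 y1 hy1 y2 hy2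
    obtain ⟨c13, d13⟩ := key2 y1 hy1 y3 hy3
    obtain ⟨c23, d23⟩ := key2 y2 hy2 y3 hy3
    have n1 := (key y1 hy1).1
    have n2 := (key y2 hy2).1
    have n3 := (key y3 hy3).1
    rcases sq_eq_sq_iff_eq_or_eq_neg.mp d12 with e | e
    · exact h12 (chart_eq n1 n2 c12 e)
    · rcases sq_eq_sq_iff_eq_or_eq_neg.mp d13 with e' | e'
      · exact h13 (chart_eq n1 n3 c13 e')
      · exact h23 (chart_eq n2 n3 c23 (by rw [e] at e'; exact neg_injective e'))

theorem FF_hyp (M : ℕ) : IsIrredHypersurface (zeros (FF M)) :=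
  ⟨FF M, 1, M + 2, FF_bihom M, FF_irred M, rfl⟩

/-! ## specialisation -/

/-- `F(x, ·)`. -/
def spec (x : Fin 3 → ℂ) (F : Pol2 2) : MvPolynomial (Fin 3) ℂ :=
  aeval (Sum.elim (fun i => C (x i)) X) F

theorem eval_spec (x y : Fin 3 → ℂ) (F : Pol2 2) :
    eval y (spec x F) = eval (Sum.elim x y) F := by
  have h : (aeval y : MvPolynomial (Fin 3) ℂ →ₐ[ℂ] ℂ).comp (aeval (Sum.elim (fun i => C (x i)) X))
      = (aeval (Sum.elim x y) : Pol2 2 →ₐ[ℂ] ℂ) := by
    apply algHom_ext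
    rintro (i | i) <;> simp
  have h2 := DFunLike.congr_fun h F
  rw [AlgHom.comp_apply, Pool.Agent.H51.Cre.aev, Pool.Agent.H51.Cre.aev] at h2
  exact h2

theorem spec_homog {F : Pol2 2} {m n : ℕ} (hF : IsBihom F m n) (x : Fin 3 → ℂ) :
    (spec x F).IsHomogeneous n := by
  unfold spec
  rw [aeval_def, eval₂_eq']
  refine IsHomogeneous.sum _ _ _ fun e he => ?_
  obtain ⟨h1, h2⟩ := hF e he
  rw [Fintype.prod_sum_type]
  simp only [Sum.elim_inl, Sum.elim_inr]
  have a1 : (algebraMap ℂ (MvPolynomial (Fin 3) ℂ) (F.coeff e)).IsHomogeneous 0 :=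
    isHomogeneous_C _ _
  have a2 : (∏ i : Fin 3, (C (x i) : MvPolynomial (Fin 3) ℂ) ^ e (Sum.inl i)).IsHomogeneous 0 := by
    have := IsHomogeneous.prod Finset.univ
      (fun i : Fin 3 => (C (x i) : MvPolynomial (Fin 3) ℂ) ^ e (Sum.inl i)) (fun _ => 0)
      (fun i _ => by simpa using (isHomogeneous_C (Fin 3) (x i)).pow (e (Sum.inl i)))
    simpa using this
  have a3 : (∏ i : Fin 3, (X i : MvPolynomial (Fin 3) ℂ) ^ e (Sum.inr i)).IsHomogeneous n := by
    have := IsHomogeneous.prod Finset.univ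
      (fun i : Fin 3 => (X i : MvPolynomial (Fin 3) ℂ) ^ e (Sum.inr i)) (fun i => e (Sum.inr i))
      (fun i _ => by simpa using (isHomogeneous_X ℂ i).pow (e (Sum.inr i)))
    rwa [h2] at this
  have := a1.mul (a2.mul a3)
  simpa using this

open Polynomial in
theorem sqf (M : ℕ) (x0 c : ℂ)
    (hδ : ((M : ℂ) + 2) * (-(((M : ℂ) + 2) * x0)) ^ (M + 1)
      + c * (((M : ℂ) + 1) * c) ^ (M + 1) ≠ 0) :
    Squarefree (-(Polynomial.X ^ (M + 2) + Polynomial.C c * Polynomial.X + Polynomial.C x0)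
      : ℂ[X]) := by
  apply Polynomial.Separable.squarefree
  unfold Polynomial.Separable
  refine (Polynomial.isCoprime_iff_aeval_ne_zero_of_isAlgClosed ℂ ℂ _ _).mpr ?_
  intro z
  by_contra hcon
  push Not at hcon
  obtain ⟨h1, h2⟩ := hcon
  simp only [map_neg, map_add, map_mul, map_pow, Polynomial.aeval_X, Polynomial.aeval_C,
    Polynomial.derivative_neg, Polynomial.derivative_add, Polynomial.derivative_mul,
    Polynomial.derivative_X_pow, Polynomial.derivative_C, Polynomial.derivative_X,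
    Algebra.algebraMap_self, RingHom.id_apply] at h1 h2
  have e1 : z ^ (M + 2) + c * z + x0 = 0 := by linear_combination -h1
  have e2 : ((M : ℂ) + 2) * z ^ (M + 1) + c = 0 := by
    simp at h2
    linear_combination -h2
  apply hδ
  have e3 : -(((M : ℂ) + 2) * x0) = (((M : ℂ) + 1) * c) * z := by
    linear_combination -((M : ℂ) + 2) * e1 + z * e2
  rw [e3, mul_pow]
  linear_combination (((M : ℂ) + 1) * c) ^ (M + 1) * e2

open Polynomial in
theorem natDeg (M : ℕ) (x0 c : ℂ) :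
    (-(Polynomial.X ^ (M + 2) + Polynomial.C c * Polynomial.X + Polynomial.C x0)
      : ℂ[X]).natDegree = M + 2 := by
  rw [Polynomial.natDegree_neg, Polynomial.natDegree_add_C,
    Polynomial.natDegree_add_eq_left_of_natDegree_lt, Polynomial.natDegree_X_pow]
  rw [Polynomial.natDegree_X_pow]
  exact ((Polynomial.natDegree_C_mul_le _ _).trans Polynomial.natDegree_X_le).trans_lt (by omega)

/-- dehomogenisation `y_0 = 1`. -/
def Xi : MvPolynomial (Fin 3) ℂ →ₐ[ℂ] MvPolynomial (Fin 3) ℂ := aeval ![1, X 0, X 1]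

/-- the parametrisation of the points `x` with the given point on the fibre. -/
def Psi (M : ℕ) : MvPolynomial (Fin 3) ℂ →ₐ[ℂ] MvPolynomial (Fin 3) ℂ :=
  aeval ![-(X 1 ^ 2 + X 0 ^ (M + 2)) - X 2 * X 0, X 2, 1]

theorem eval_Xi (z : Fin 3 → ℂ) (f : MvPolynomial (Fin 3) ℂ) :
    eval z (Xi f) = eval ![1, z 0, z 1] f := by
  have h : (aeval z : MvPolynomial (Fin 3) ℂ →ₐ[ℂ] ℂ).comp Xi
      = (aeval ![1, z 0, z 1] : MvPolynomial (Fin 3) ℂ →ₐ[ℂ] ℂ) := by
    apply algHom_ext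
    intro i
    unfold Xi
    fin_cases i <;> simp
  have h2 := DFunLike.congr_fun h f
  rw [AlgHom.comp_apply, Pool.Agent.H51.Cre.aev, Pool.Agent.H51.Cre.aev] at h2
  exact h2

theorem eval_Psi (M : ℕ) (z : Fin 3 → ℂ) (f : MvPolynomial (Fin 3) ℂ) :
    eval z (Psi M f) = eval ![-(z 1 ^ 2 + z 0 ^ (M + 2)) - z 2 * z 0, z 2, 1] f := by
  have h : (aeval z : MvPolynomial (Fin 3) ℂ →ₐ[ℂ] ℂ).comp (Psi M)
      = (aeval ![-(z 1 ^ 2 + z 0 ^ (M + 2)) - z 2 * z 0, z 2, 1] :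
        MvPolynomial (Fin 3) ℂ →ₐ[ℂ] ℂ) := by
    apply algHom_ext
    intro i
    unfold Psi
    fin_cases i <;> simp
  have h2 := DFunLike.congr_fun h f
  rw [AlgHom.comp_apply, Pool.Agent.H51.Cre.aev, Pool.Agent.H51.Cre.aev] at h2
  exact h2

theorem Xi_ne {f : MvPolynomial (Fin 3) ℂ} {k : ℕ} (hf : f ≠ 0) (hk : f.IsHomogeneous k) :
    Xi f ≠ 0 := by
  obtain ⟨v, hv, hvf⟩ := Pool.Agent.H51.Cre.exists_eval_chart hf hk 0
  intro h0
  apply hvf
  have h1 := eval_Xi ![v 1, v 2, 0] f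
  rw [h0, map_zero] at h1
  have h2 : (![1, v 1, v 2] : Fin 3 → ℂ) = v := by
    funext i
    fin_cases i
    · exact hv.symm
    · rfl
    · rfl
  rw [← h2]
  simpa using h1.symm

theorem Psi_ne (M : ℕ) {f : MvPolynomial (Fin 3) ℂ} {v : Fin 3 → ℂ} (hv : v 2 = 1)
    (hvf : eval v f ≠ 0) : Psi M f ≠ 0 := by
  intro h0
  apply hvf
  obtain ⟨s, hs⟩ : ∃ s : ℂ, s ^ 2 = -v 0 := ⟨(-v 0) ^ (1 / 2 : ℂ), by
    rw [← Complex.cpow_nat_mul]; simp⟩
  have h1 := eval_Psi M ![0, s, v 1] f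
  rw [h0, map_zero] at h1
  have h2 : (![-((![0, s, v 1] : Fin 3 → ℂ) 1 ^ 2 + (![0, s, v 1] : Fin 3 → ℂ) 0 ^ (M + 2))
      - (![0, s, v 1] : Fin 3 → ℂ) 2 * (![0, s, v 1] : Fin 3 → ℂ) 0,
      (![0, s, v 1] : Fin 3 → ℂ) 2, 1] : Fin 3 → ℂ) = v := by
    funext i
    fin_cases i
    · simp [hs]
    · rfl
    · exact hv.symm
  rw [h2] at h1
  exact h1.symm

theorem not_bounded (t : ℕ) (ht : 3 ≤ t) : ¬ BoundedUpToCremona 2 t := by
  classical
  rintro ⟨d, hd⟩
  obtain ⟨σ, ⟨⟨⟨k, hk⟩, hred⟩, τ, ⟨⟨e, he⟩, _⟩, ⟨h, hh0, hτσ⟩, _⟩, F, m, n, hF, hn, U, V, hU, hUn,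
    hV, hVn, hEq⟩ := hd (zeros (FF (2 * d))) (FF_hyp _) (FF_gridfree _ t ht)
  set M := 2 * d with hM
  obtain ⟨fU, kU, hfU0, hfU, hfUU⟩ := exists_basic hU hUn
  obtain ⟨fV, kV, hfV0, hfV, hfVV⟩ := exists_basic hV hVn
  obtain ⟨j, hj⟩ : ∃ j, σ j ≠ 0 := by
    by_contra hcon
    push Not at hcon
    exact not_isUnit_zero (hred 0 (fun i => by rw [hcon i]))
  set D : MvPolynomial (Fin 3) ℂ := C ((M : ℂ) + 2) * (-(C ((M : ℂ) + 2) * X 0)) ^ (M + 1)
      + X 1 * (C ((M : ℂ) + 1) * X 1) ^ (M + 1) with hD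
  have hevD : ∀ v : Fin 3 → ℂ, eval v D = ((M : ℂ) + 2) * (-(((M : ℂ) + 2) * v 0)) ^ (M + 1)
      + v 1 * (((M : ℂ) + 1) * v 1) ^ (M + 1) := by
    intro v
    rw [hD]
    simp
  have hM2 : ((M : ℂ) + 2) ≠ 0 := by
    exact_mod_cast (by omega : M + 2 ≠ 0)
  have hΨD : Psi M D ≠ 0 := by
    refine Psi_ne M (v := ![1, 0, 1]) rfl ?_
    rw [hevD]
    have : -(((M : ℂ) + 2) * 1) ≠ 0 := by
      rw [mul_one]; exact neg_ne_zero.mpr hM2
    have h1 := mul_ne_zero hM2 (pow_ne_zero (M + 1) this)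
    simpa using h1
  have hΨU : Psi M fU ≠ 0 := by
    obtain ⟨v, hv, hvf⟩ := Pool.Agent.H51.Cre.exists_eval_chart hfU0 hfU 2
    exact Psi_ne M hv hvf
  have hΞV : Xi fV ≠ 0 := Xi_ne hfV0 hfV
  have hΞσ : Xi (σ j) ≠ 0 := Xi_ne hj (hk j)
  have hτσ' : ∀ i, bind₁ σ (τ i) = h * X i := hτσ
  have hΞτ : Xi (bind₁ σ (τ 0)) ≠ 0 := by
    refine Xi_ne (k := k * e) ?_ ?_
    · rw [hτσ']
      exact mul_ne_zero hh0 (X_ne_zero _)
    · exact (he 0).aeval σ hk
  obtain ⟨z, hz⟩ := Pool.Agent.H51.Cre.exists_eval_ne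
    (mul_ne_zero (mul_ne_zero (mul_ne_zero (mul_ne_zero hΨD hΨU) hΞV) hΞσ) hΞτ)
  rw [map_mul, map_mul, map_mul, map_mul] at hz
  have z5 := right_ne_zero_of_mul hz
  have z4 := right_ne_zero_of_mul (left_ne_zero_of_mul hz)
  have z3 := right_ne_zero_of_mul (left_ne_zero_of_mul (left_ne_zero_of_mul hz))
  have z2 := right_ne_zero_of_mul (left_ne_zero_of_mul (left_ne_zero_of_mul
    (left_ne_zero_of_mul hz)))
  have z1 := left_ne_zero_of_mul (left_ne_zero_of_mul (left_ne_zero_of_mul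
    (left_ne_zero_of_mul hz)))
  rw [eval_Psi] at z1 z2
  rw [eval_Xi] at z3 z4 z5
  generalize hx0 : -(z 1 ^ 2 + z 0 ^ (M + 2)) - z 2 * z 0 = x0 at z1 z2
  generalize z 2 = c at *
  generalize z 0 = a0 at *
  generalize z 1 = b0 at *
  set x : Fin 3 → ℂ := ![x0, c, 1] with hx
  have hxne : x ≠ 0 := by
    intro h0
    have := congrFun h0 2
    simp [hx] at this
  have hxU : Projectivization.mk ℂ x hxne ∈ U := hfUU x hxne z2
  have hyne : ∀ a b : ℂ, (![1, a, b] : Fin 3 → ℂ) ≠ 0 := by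
    intro a b h0
    have := congrFun h0 0
    simp at this
  have hyV : ∀ a b : ℂ, eval ![1, a, b] fV ≠ 0 →
      Projectivization.mk ℂ ![1, a, b] (hyne a b) ∈ V := fun a b hab => hfVV _ _ hab
  have hiff : ∀ a b : ℂ, eval ![1, a, b] fV ≠ 0 →
      (x0 + c * a + (b ^ 2 + a ^ (M + 2)) = 0 ↔
        eval (fun i => eval ![1, a, b] (σ i)) (spec x F) = 0) := by
    intro a b hab
    rw [eval_spec, ← mem_zeros_comp_mk hF hk x ![1, a, b] hxne (hyne a b)]
    have h1 : (x0 + c * a + (b ^ 2 + a ^ (M + 2)) = 0) ↔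
        (Projectivization.mk ℂ x hxne, Projectivization.mk ℂ ![1, a, b] (hyne a b))
          ∈ zeros (FF M) := by
      rw [mem_zeros_mk (FF_bihom M), eval_FF]
      simp [hx]
    rw [h1]
    have h2 : (Projectivization.mk ℂ x hxne, Projectivization.mk ℂ ![1, a, b] (hyne a b))
        ∈ U ×ˢ V := ⟨hxU, hyV a b hab⟩
    constructor
    · intro h3
      have : (Projectivization.mk ℂ x hxne, Projectivization.mk ℂ ![1, a, b] (hyne a b))
        ∈ zeros (FF M) ∩ U ×ˢ V := ⟨h3, h2⟩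
      rw [hEq] at this
      exact this.1
    · intro h3
      have : (Projectivization.mk ℂ x hxne, Projectivization.mk ℂ ![1, a, b] (hyne a b))
        ∈ zeros (comp F σ) ∩ U ×ˢ V := ⟨h3, h2⟩
      rw [← hEq] at this
      exact this.1
  -- the specialisation does not vanish identically
  have hf0 : spec x F ≠ 0 := by
    intro h0
    set W : MvPolynomial (Fin 3) ℂ := spec x (FF M) with hW
    have hWev : ∀ v, eval v W = x0 * v 0 ^ (M + 2) + c * (v 0 ^ (M + 1) * v 1)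
      + (v 0 ^ M * v 2 ^ 2 + v 1 ^ (M + 2)) := by
      intro v
      rw [hW, eval_spec, eval_FF]
      simp [hx]
    have hW0 : W ≠ 0 := by
      intro hW0
      have := hWev ![0, 1, 0]
      rw [hW0, map_zero] at this
      simp at this
    have hWh : W.IsHomogeneous (M + 2) := spec_homog (FF_bihom M) x
    obtain ⟨v, hv, hvf⟩ := Pool.Agent.H51.Cre.exists_eval_chart (mul_ne_zero hfV0 hW0)
      (hfV.mul hWh) 0
    rw [map_mul] at hvf
    have hv' : v = ![1, v 1, v 2] := by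
      funext i
      fin_cases i
      · exact hv
      · rfl
      · rfl
    have h1 := left_ne_zero_of_mul hvf
    have h2 := right_ne_zero_of_mul hvf
    rw [hv'] at h1
    have h3 := (hiff (v 1) (v 2) h1).mpr (by rw [h0, map_zero])
    apply h2
    rw [hWev, hv]
    linear_combination h3
  refine Pool.Agent.H51.Cre.core' (d := d) (sqf M x0 c ?_) ?_ he hτσ' (spec_homog hF x) hn hf0
    (g0 := fV) ?_ (x0 := a0) (y0 := b0) ?_ ?_ ?_ (j := j) ?_
  · rw [hevD] at z1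
    exact z1
  · rw [natDeg]; omega
  · intro a b hab
    rw [Pool.Agent.H51.Cre.aev, map_mul]
    by_cases h1 : eval ![1, a, b] fV = 0
    · rw [h1, zero_mul]
    · have h2 := (hiff a b h1).mp (by
        rw [hab]
        simp
        ring)
      rw [← Pool.Agent.H51.Cre.aev _ (bind₁ σ (spec x F)), aeval_bind₁]
      simp only [Pool.Agent.H51.Cre.aev]
      rw [h2, mul_zero]
  · rw [← hx0]
    simp
    ring
  · rw [Pool.Agent.H51.Cre.aev]; exact z3
  · rw [Pool.Agent.H51.Cre.aev]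
    rw [hτσ', map_mul] at z5
    exact left_ne_zero_of_mul z5
  · rw [Pool.Agent.H51.Cre.aev]; exact z4

/-- **For `s = 2` and every `t ≥ 3` no bound `d(s,t)` exists**: for every `d` there is an
irreducible almost-`(2,t)`-grid-free hypersurface in `ℙ² × ℙ²` which is not almost equal to
`{F ∘ (id × σ) = 0}` for any Cremona transformation `σ` and any `F` of `y`-degree at most `d`. -/
theorem result : ∀ t : ℕ, 3 ≤ t → ¬ BoundedUpToCremona 2 t :=
  not_bounded

end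

end Pool.Agent.Results.MP_b5dac0_ag.NotBounded
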